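import Pool.Agent.H28.EN.Targets
import Pool.Agent.H93.EB.Basic

/-!
# The energy argument (MP_c59857_nt), section EN1: the correlation with a wave is a real part
-/

set_option autoImplicit false

open Finset Pool.Agent.H6.N4D Pool.Agent.H93.EB Pool.Agent.H28.EN

namespace Pool.Agent.H1.ENW

theorem pf_GRE : T_GRE := by
  intro f N n θ φ
  unfold G cr
  rw [← mul_div_assoc, mul_sum, ← Complex.ofReal_natCast, Complex.div_ofReal_re,
    Complex.re_sum]
  congr 1
  apply sum_congr rfl
  intro m _
  have h2 : ee (-φ) * ((f m : ℂ) * ee (-(θ * m))) = (f m : ℂ) * ee (-(θ * m + φ)) := by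
    rw [mul_left_comm, ← ee_add]; congr 2; ring
  rw [h2, Complex.re_ofReal_mul, ee_re]
  congr 1
  rw [← Real.cos_neg]
  congr 1; ring

end Pool.Agent.H1.ENW
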